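import Pool.Agent.Helper16.KA.Main
import Pool.Agent.Helper26.KA.Ext
import Pool.Agent.Helper26.KA.RelSH
import Pool.Agent.Helper33.KA.ModS
import Pool.Agent.Helper41.KL.EF
import Pool.Agent.Helper78.KA.Lift

set_option autoImplicit false

/-!
Project KA, KA-12: the final statement.
-/

namespace Pool.Agent.Helper16.KAP

open Pool.Agent.Helper1.KA

/-- **KA-12.** -/
theorem modPsi (k : Type) [Field k] (p a : ℕ) [Fact p.Prime] [CharP k p] {n : ℕ} (c : Fin n → k)
    (r : ℕ) (ha : 2 ≤ a) (hc : ∀ i, c i ≠ 0) (τ : Fin n → Option (ZMod p)) :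
    ModPsi k p a c r τ :=
  modPsi_of (by omega) (fun _ _ _ v _ hz => Helper26.KA.XV_spec ha hc v hz) τ
    (Helper33.KA.modS k p a c r) Helper41.KL.stEF
    (Helper26.KA.stExt (Helper78.KA.modLift k p a c) τ)

end Pool.Agent.Helper16.KAP
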