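import Pool.Agent.Helper16.KA.Sum
import Pool.Agent.Helper73.KA.P0b

set_option autoImplicit false
set_option linter.unusedSectionVars false
set_option linter.style.haveILetI false

/-!
Project KA, KA-12: the properties of `Ψ`.
-/

namespace Pool.Agent.Helper16.KAP

open Pool.Agent.Helper16
open Pool.Agent.Helper1.KL (Var VarF Key key fld spec cyc relations rat CH coef Idx)
open Pool.Agent.Helper1.KL (aff xc yc tr ec red xpt perp Prp ratf Vert Con At0 Quo cls IT RT)
open Pool.Agent.Helper1.KL (key_eq_iff getD_map key_map mem_fld getD_mem_fld fld_eq_range fld_map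
  trdeg_fld_map restr restr_map key_restr fld_restr trdeg_fld_restr exists_hom_of_key
  trdeg_eq_of_key charP_ratFunc charP_alg cast_pow_p)
open Pool.Agent.Helper1.KA
open Pool.Agent.Helper16.KLP (Above resL Gs mp mem_IT RT_of_notMem mp_eq StEF)

variable {k : Type} [Field k] {p m : ℕ} [Fact p.Prime] [CharP k p] {n : ℕ} {d : Fin n → k} {r : ℕ}

theorem psi_eq_zero {τ : Fin n → Option (ZMod p)} (hτ : RT τ = 0) (q : Key k (Fin n)) :
    psi k p m d r τ q = 0 := by
  rw [psi, dif_neg]
  rintro ⟨s, N, _, _, _, _, z, -, -, he, -⟩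
  rw [hτ] at he
  unfold ec at he
  simp at he

section main

variable {N L M : Type} [Field N] [Field L] [Field M]
  [Algebra k N] [Algebra k L] [Algebra k M] [Algebra N L] [Algebra N M] [Algebra L M]
  [Algebra (RatFunc k) L] [Algebra (RatFunc k) M] [IsScalarTower k N L]
  [IsScalarTower k (RatFunc k) L] [IsScalarTower k N M] [IsScalarTower k (RatFunc k) M]
  [IsScalarTower N L M] [IsScalarTower (RatFunc k) L M] [IsScalarTower k L M]
  [FiniteDimensional L M] [Algebra.IsSeparable L M]
  {τ : Fin n → Option (ZMod p)} {x : Fin n → Option N} {z : Fin n ⊕ Fin n → Option M}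

/-- Relations on `Y`. -/
theorem Dt.rel_Y (D : Dt m d r τ N L M x z) (hS : ModS k p m d r) (hEF : StEF) {f : N}
    (hf : f ≠ 0) {S : Finset (Place k N)}
    (hSm : ∀ w, w ∈ S ↔ w.ord f ≠ 0 ∧ YV m d τ w.resField (spec w x) ∧
      Algebra.trdeg k (fld k (spec w x)) = r) (hB : Bfun τ x = 0) (he : ec (RT τ) z = 1) :
    Psi k p m d r τ (∑ w ∈ S, Finsupp.single (key k (spec w x))
      ((w.ord f * Module.finrank (fld k (spec w x)) w.resField : ℤ) : ℚ)) ∈
        GG p m d r (IT τ).card := by
  refine D.rel_image hS hEF hf hSm {0} (fun _ => algebraMap N M f) (fun _ => 0)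
    (fun _ _ => (map_ne_zero _).2 hf) ?_ ?_
  · intro c _ v hv hG
    refine ⟨rfl, ?_, ?_⟩
    · rw [(D.Bc_spec hG).2, hB, map_zero, v.res_zero]
    · rw [Helper57.KL.tr_zero, (D.ec_spec hG).2, he, v.res_one]
  · intro v hG hv _
    exact ⟨0, Finset.mem_singleton_self _, hv, fun c' hc' _ => Finset.mem_singleton.1 hc'⟩

/-- The divisors of `B`. -/
theorem Dt.rel_B (D : Dt m d r τ N L M x z) (hS : ModS k p m d r) (hEF : StEF) (hτ : RT τ ≠ 0) {f : N}
    (hf : f ≠ 0) {S : Finset (Place k N)}
    (hSm : ∀ w, w ∈ S ↔ w.ord f ≠ 0 ∧ YV m d τ w.resField (spec w x) ∧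
      Algebra.trdeg k (fld k (spec w x)) = r) (hB : f = Bfun τ x) :
    Psi k p m d r τ (∑ w ∈ S, Finsupp.single (key k (spec w x))
      ((w.ord f * Module.finrank (fld k (spec w x)) w.resField : ℤ) : ℚ)) ∈
        GG p m d r (IT τ).card := by
  classical
  have hch := charP_alg (k := k) (p := p) M
  have hp := (Fact.out : p.Prime)
  obtain ⟨i, hi⟩ := Function.ne_iff.1 hτ
  change RT τ i ≠ 0 at hi
  set u : Fin n → ZMod p := Pi.single i (RT τ i)⁻¹ with hu
  have hu1 : ∀ c : ZMod p, ∑ j, RT τ j * (c • u) j = c := by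
    intro c
    rw [Finset.sum_eq_single i]
    · rw [hu, Pi.smul_apply, Pi.single_eq_same, smul_eq_mul]
      field_simp
    · intro j _ hj
      rw [hu, Pi.smul_apply, Pi.single_eq_of_ne hj, smul_zero, mul_zero]
    · intro h
      exact absurd (Finset.mem_univ i) h
  set e := ec (RT τ) z with he
  have hee : e ^ p - e = algebraMap N M f := by rw [hB, he, D.ec_eq]
  have hfM : algebraMap N M f ≠ 0 := (map_ne_zero _).2 hf
  have hcp : ∀ c : ZMod p, (c.cast : M) ^ p = c.cast := fun c => cast_pow_p c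
  have hfac : ∀ c : ZMod p, algebraMap N M f =
      (e - c.cast) * ((e - c.cast) ^ (p - 1) - 1) := by
    intro c
    have h1 : (e - (c.cast : M)) ^ p = e ^ p - c.cast := by
      rw [sub_pow_char, hcp]
    have h2 : (e - (c.cast : M)) * (e - c.cast) ^ (p - 1) = (e - c.cast) ^ p := by
      rw [← pow_succ', Nat.sub_add_cancel hp.one_lt.le]
    rw [mul_sub, h2, h1, ← hee]
    ring
  have hF0 : ∀ c : ZMod p, e - (c.cast : M) ≠ 0 := by
    intro c h0
    have := hfac c
    rw [h0, zero_mul] at this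
    exact hfM this
  have hcast : ∀ (v : Place (RatFunc k) M) (c : ZMod p), (c.cast : M) ∈ v.ring ∧
      v.res (c.cast : M) = (c.cast : v.resField) := fun v c => Helper84.KL.cast_mem_res v c
  -- the residue of `e`
  have hres : ∀ (v : Place (RatFunc k) M) (c : ZMod p), Good p m d r (IT τ) (spec v z) →
      (v.ord (e - c.cast) ≠ 0 ↔ ec (RT τ) (spec v z) = c.cast) := by
    intro v c hG
    obtain ⟨h1, h2⟩ := D.ec_spec hG
    have h3 : e - (c.cast : M) ∈ v.ring := sub_mem h1 (hcast v c).1
    have h4 : v.res (e - c.cast) = ec (RT τ) (spec v z) - c.cast := by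
      rw [v.res_sub h1 (hcast v c).1, (hcast v c).2, h2]
    rw [← sub_eq_zero, ← h4, v.res_eq_zero_iff h3, Ne, v.ord_eq_zero_iff (hF0 c)]
    exact ⟨fun h => lt_of_le_of_ne h3 h, fun h => h.ne⟩
  refine D.rel_image hS hEF hf hSm Finset.univ (fun c => e - c.cast) (fun c => (1 - c) • u)
    (fun c _ => hF0 c) ?_ ?_
  · intro c _ v hv hG
    have h1 := (hres v c hG).1 hv
    obtain ⟨h2, h3⟩ := D.ec_spec hG
    have h4 : e - (c.cast : M) ∈ v.ring := sub_mem h2 (hcast v c).1
    have h5 : v.res (e - c.cast) = 0 := by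
      rw [v.res_sub h2 (hcast v c).1, (hcast v c).2, ← h3, h1, sub_self]
    have hp1 : p - 1 ≠ 0 := by
      have := hp.one_lt
      omega
    have h6 : (e - (c.cast : M)) ^ (p - 1) - 1 ∈ v.ring := sub_mem (pow_mem h4 _) (one_mem _)
    have h7 : v.res ((e - (c.cast : M)) ^ (p - 1) - 1) = -1 := by
      rw [v.res_sub (pow_mem h4 _) (one_mem _), v.res_pow h4, h5, zero_pow hp1, v.res_one,
        zero_sub]
    have h8 : (e - (c.cast : M)) ^ (p - 1) - 1 ≠ 0 := by
      intro h0
      rw [h0, v.res_zero] at h7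
      exact one_ne_zero (neg_eq_zero.1 h7.symm)
    have h9 : v.ord ((e - (c.cast : M)) ^ (p - 1) - 1) = 0 := by
      rw [v.ord_eq_zero_iff h8]
      refine le_antisymm h6 ?_
      by_contra hlt
      rw [not_le, ← v.res_eq_zero_iff h6, h7] at hlt
      exact one_ne_zero (neg_eq_zero.1 hlt)
    refine ⟨?_, ?_, ?_⟩
    · rw [hfac c, v.ord_mul (hF0 c) h8, h9, add_zero]
    · rw [(D.Bc_spec hG).2, ← hB, hfac c, v.res_mul h4 h6, h5, zero_mul]
    · have h10 := charP_alg (k := k) (p := p) v.resField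
      rw [Helper57.KA.Good.ec_tr hG (fun i hi => RT_of_notMem hi), hu1, h1,
        ← ZMod.cast_add (dvd_refl p), add_sub_cancel, ZMod.cast_one (dvd_refl p)]
  · intro v hG hv hBc
    have h10 := charP_alg (k := k) (p := p) v.resField
    have h1 := as_eq D.hm hG.mem (RT τ)
    rw [D.Xc_spec hG, hBc, mul_zero, add_zero] at h1
    obtain ⟨c, hc⟩ := Helper33.KL.exists_cast (p := p) (u := ec (RT τ) (spec v z)) (w := 0) (by
      rw [h1, zero_pow hp.ne_zero, sub_zero])
    rw [zero_add] at hc
    refine ⟨c, Finset.mem_univ _, (hres v c hG).2 hc, fun c' _ hc' => ?_⟩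
    have h2 := (hres v c' hG).1 hc'
    rw [hc] at h2
    exact ((ZMod.castHom (dvd_refl p) v.resField).injective h2).symm

end main

/-- **KL-12.** -/
theorem modPsi_of (hm : m ≠ 0) (hXs : ∀ (M : Type) [Field M] [Algebra (RatFunc k) M]
    (v : Place (RatFunc k) M) (z : Fin n ⊕ Fin n → Option M), XV p m d M z →
    XV p m d v.resField (spec v z)) (τ : Fin n → Option (ZMod p)) (hS : ModS k p m d r)
    (hEF : StEF) (hExt : StExt k p m d τ) : ModPsi k p m d r τ := by
  refine ⟨Psi k p m d r τ, ?_, ?_⟩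
  · intro N _ _ _ _ z hz hV hX hB he
    exact Psi_first hS τ hz hV hX hB he
  · intro c hc
    have hle : rat (YV m d τ)
        (fun N _ _ x f => YV m d τ N x ∨ (AV m d τ N x ∧ f = Bfun τ x)) r ≤
        (GG p m d r (IT τ).card).comap (Psi k p m d r τ) := by
      refine Submodule.span_le.2 ?_
      rintro _ ⟨N, _, _, x, f, S, hN, htr, hP, hf, hSm, rfl⟩
      rw [SetLike.mem_coe, Submodule.mem_comap]
      by_cases hτ : RT τ = 0
      · rw [map_sum]
        refine sum_mem fun w _ => ?_
        rw [Psi_single, psi_eq_zero hτ, smul_zero]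
        exact zero_mem _
      have hAV : AV m d τ N x := by
        rcases hP with h | h
        · exact h.1
        · exact h.1
      obtain ⟨L, M, _, _, _, _, _, _, _, _, _, _, _, _, _, _, _, _, _, _, z, hT, htop, hM, htrM,
        hz, hxz, hy, he⟩ := hExt N x r hN htr hAV hτ
      have D : Dt m d r τ N L M x z := 
        ⟨hm, fun v => hXs M v z hz, hT, htop, htr, hM, htrM, hz, hxz, hAV⟩
      by_cases hB : Bfun τ x = 0
      · exact D.rel_Y hS hEF hf hSm hB (he hB)
      · rcases hP with h | h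
        · exact absurd h.2 hB
        · exact D.rel_B hS hEF hτ hf hSm h.2
    exact hle hc

end Pool.Agent.Helper16.KAP
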