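import Pool.Agent.Helper1.KA.GeneralB
import Pool.Agent.Helper16.KL.Psi

set_option autoImplicit false
set_option linter.unusedSectionVars false
set_option linter.style.haveILetI false

/-!
Project KA, KA-12: the map `Ψ`.
-/

namespace Pool.Agent.Helper16.KAP

open Pool.Agent.Helper16 Pool.Agent.HC
open Pool.Agent.Helper1.KL (Var VarF Key key fld spec cyc relations rat CH coef Idx)
open Pool.Agent.Helper1.KL (aff xc yc tr ec red xpt perp Prp ratf Vert Con At0 Quo cls IT RT)
open Pool.Agent.Helper1.KL (key_eq_iff getD_map key_map mem_fld getD_mem_fld fld_eq_range fld_map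
  trdeg_fld_map restr restr_map key_restr fld_restr trdeg_fld_restr exists_hom_of_key
  trdeg_eq_of_key charP_ratFunc charP_alg cast_pow_p)
open Pool.Agent.Helper1.KA
open Pool.Agent.Helper16.KLP (transc_of_trdeg cast_coef mem_IT ec_mem_fld fld_red_le
  fld_xpt_le_red fld_red_eq key_red_of_key)

variable {k : Type} [Field k] {p m : ℕ} [Fact p.Prime] [CharP k p] {n : ℕ} {d : Fin n → k} {r : ℕ}

section one

variable {N : Type} [Field N] [Algebra k N] [Algebra (RatFunc k) N] [IsScalarTower k (RatFunc k) N]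

/-- At a vertical point the variable `t` is transcendental over the field of the `x i`. -/
theorem transc_of_vert {z : Fin n ⊕ Fin n → Option N} (hz : XV p m d N z)
    (hr : Algebra.trdeg (RatFunc k) (fld (RatFunc k) z) = r) (hV : Vert k r z) :
    Transcendental (fld k (xpt z)) (tv k N) ∧ Algebra.trdeg k (fld k (xpt z)) = r :=
  transc_of_trdeg {a | ∃ j, xpt z j = some a} hV ((trdeg_xpt hz).trans hr)

theorem sum_coef_eq (τ : Fin n → Option (ZMod p)) (z : Fin n ⊕ Fin n → Option N) :
    ∑ i, (coef τ i : N) * algebraMap k N (d i) * (xpt z i).getD 0 ^ m = Xc m d (RT τ) z := by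
  unfold Xc
  refine Finset.sum_congr rfl fun i _ => ?_
  rw [cast_coef, IsScalarTower.algebraMap_apply k (RatFunc k) N]
  rfl

theorem Bfun_eq (τ : Fin n → Option (ZMod p)) (z : Fin n ⊕ Fin n → Option N) :
    Bfun τ (xpt z) = Bc (RT τ) z := by
  unfold Bfun Bc
  refine Finset.sum_congr rfl fun i _ => ?_
  rw [cast_coef]
  rfl

/-- The point `x` of a good point. -/
theorem AV_of_good {τ : Fin n → Option (ZMod p)}
    {z : Fin n ⊕ Fin n → Option N} (h : Good p m d r (IT τ) z) (hX : Xc m d (RT τ) z = 0) :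
    AV m d τ N (xpt z) := by
  refine ⟨fun i => ⟨fun hi => h.inf i fun h0 => mem_IT.1 h0 hi, fun hi => ?_⟩, ?_⟩
  · by_contra h0
    have h1 := (h.of_mem (mem_IT.2 h0)).1
    have h2 : z (Sum.inl i) = none := hi
    rw [h1] at h2
    exact Option.some_ne_none _ h2
  · rw [sum_coef_eq]
    exact hX

theorem YV_of_good {τ : Fin n → Option (ZMod p)}
    {z : Fin n ⊕ Fin n → Option N} (h : Good p m d r (IT τ) z) (hX : Xc m d (RT τ) z = 0)
    (hB : Bc (RT τ) z = 0) : YV m d τ N (xpt z) :=
  ⟨AV_of_good h hX, by rw [Bfun_eq]; exact hB⟩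

variable {z : Fin n ⊕ Fin n → Option N}

/-- The field of a point is finite over the field of the reduced point. -/
theorem finite_red (hz : XV p m d N z) (ρ : Fin n → ZMod p) :
    FiniteDimensional (fld (RatFunc k) (red ρ z))
      (IntermediateField.extendScalars (fld_red_le (k := k) ρ z)) := by
  set E := fld (RatFunc k) (red ρ z) with hE
  have h1 : IntermediateField.extendScalars (fld_red_le (k := k) ρ z) =
      IntermediateField.adjoin E (Set.range fun j => (z j).getD 0) := by
    apply le_antisymm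
    · intro a ha
      have ha' : a ∈ fld (RatFunc k) z := ha
      rw [fld_eq_range] at ha'
      have h2 : IntermediateField.adjoin (RatFunc k) (Set.range fun j => (z j).getD 0) ≤
          (IntermediateField.adjoin E (Set.range fun j => (z j).getD 0)).restrictScalars
            (RatFunc k) := by
        rw [IntermediateField.adjoin_le_iff]
        exact IntermediateField.subset_adjoin E _
      exact h2 ha'
    · rw [IntermediateField.adjoin_le_iff]
      rintro _ ⟨j, rfl⟩
      exact getD_mem_fld z j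
  rw [h1]
  refine IntermediateField.finiteDimensional_adjoin fun a ha => ?_
  obtain ⟨j, rfl⟩ := ha
  rcases j with i | i
  · exact isIntegral_algebraMap (R := E) (A := N)
      (x := ⟨(z (Sum.inl i)).getD 0, getD_mem_fld (red ρ z) (Sum.inl i)⟩)
  · exact isIntegral_yc hz E i (getD_mem_fld (red ρ z) (Sum.inl i))

theorem relfinrank_ne_zero (hz : XV p m d N z) (ρ : Fin n → ZMod p) :
    (fld (RatFunc k) (red ρ z)).relfinrank (fld (RatFunc k) z) ≠ 0 := by
  rw [IntermediateField.relfinrank_eq_finrank_of_le (fld_red_le (k := k) ρ z)]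
  have := finite_red hz ρ
  exact Module.finrank_pos.ne'

end one

/-! ### The map -/

/-- The possible values of the map. -/
def PsiVal (k : Type) [Field k] (p m : ℕ) [Fact p.Prime] [CharP k p] {n : ℕ} (d : Fin n → k)
    (r : ℕ) (τ : Fin n → Option (ZMod p)) (q : Key k (Fin n)) (s : QX p m d r) : Prop :=
  ∃ (N : Type) (_ : Field N) (_ : Algebra k N) (_ : Algebra (RatFunc k) N)
    (_ : IsScalarTower k (RatFunc k) N) (z : Fin n ⊕ Fin n → Option N), Good p m d r (IT τ) z ∧
    Vert k r z ∧ ec (RT τ) z = 1 ∧ key k (xpt z) = q ∧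
    s = (((fld (RatFunc k) (red (RT τ) z)).relfinrank (fld (RatFunc k) z) : ℕ) : ℚ)⁻¹ •
      SS p m d r (RT τ) z

theorem PsiVal.unique (hS : ModS k p m d r) {τ : Fin n → Option (ZMod p)}
    {q : Key k (Fin n)} {s s' : QX p m d r} (h : PsiVal k p m d r τ q s)
    (h' : PsiVal k p m d r τ q s') : s = s' := by
  obtain ⟨N, _, _, _, _, z, hz, hV, he, rfl, rfl⟩ := h
  obtain ⟨N', _, _, _, _, z', hz', hV', he', hq, rfl⟩ := h'
  have h1 := key_red_of_key (transc_of_vert hz.mem hz.dim hV).1
    (transc_of_vert hz'.mem hz'.dim hV').1 he he' hq.symm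
  obtain ⟨h2, h3⟩ := hS N N' z z' (RT τ) hz.mem hz'.mem h1
  rw [h2, h3]

open scoped Classical in
/-- The map on integral subschemes. -/
noncomputable def psi (k : Type) [Field k] (p m : ℕ) [Fact p.Prime] [CharP k p] {n : ℕ}
    (d : Fin n → k) (r : ℕ) (τ : Fin n → Option (ZMod p)) (q : Key k (Fin n)) : QX p m d r :=
  if h : ∃ s, PsiVal k p m d r τ q s then h.choose else 0

theorem SS_eq_psi (hS : ModS k p m d r) {τ : Fin n → Option (ZMod p)}
    {N : Type} [Field N] [Algebra k N] [Algebra (RatFunc k) N] [IsScalarTower k (RatFunc k) N]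
    {z : Fin n ⊕ Fin n → Option N} (hz : Good p m d r (IT τ) z) (hV : Vert k r z)
    (he : ec (RT τ) z = 1) :
    SS p m d r (RT τ) z =
      (((fld (RatFunc k) (red (RT τ) z)).relfinrank (fld (RatFunc k) z) : ℕ) : ℚ) •
        psi k p m d r τ (key k (xpt z)) := by
  have h1 : PsiVal k p m d r τ (key k (xpt z))
      ((((fld (RatFunc k) (red (RT τ) z)).relfinrank (fld (RatFunc k) z) : ℕ) : ℚ)⁻¹ •
        SS p m d r (RT τ) z) :=
    ⟨N, inferInstance, inferInstance, inferInstance, inferInstance, z, hz, hV, he, rfl, rfl⟩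
  have h2 : ∃ s, PsiVal k p m d r τ (key k (xpt z)) s := ⟨_, h1⟩
  rw [psi, dif_pos h2, PsiVal.unique hS h2.choose_spec h1, smul_smul, mul_inv_cancel₀, one_smul]
  exact_mod_cast relfinrank_ne_zero hz.mem (RT τ)

/-- The map `Ψ`. -/
noncomputable def Psi (k : Type) [Field k] (p m : ℕ) [Fact p.Prime] [CharP k p] {n : ℕ}
    (d : Fin n → k) (r : ℕ) (τ : Fin n → Option (ZMod p)) :
    (Key k (Fin n) →₀ ℚ) →ₗ[ℚ] QX p m d r :=
  Finsupp.linearCombination ℚ (psi k p m d r τ)

theorem Psi_single (τ : Fin n → Option (ZMod p)) (q : Key k (Fin n)) (c : ℚ) :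
    Psi k p m d r τ (Finsupp.single q c) = c • psi k p m d r τ q := by
  rw [Psi, Finsupp.linearCombination_single]

/-- The first property of `Ψ`. -/
theorem Psi_first (hS : ModS k p m d r) (τ : Fin n → Option (ZMod p))
    {N : Type} [Field N] [Algebra k N] [Algebra (RatFunc k) N] [IsScalarTower k (RatFunc k) N]
    {z : Fin n ⊕ Fin n → Option N} (hz : Good p m d r (IT τ) z) (hV : Vert k r z)
    (hX : Xc m d (RT τ) z = 0) (hB : Bc (RT τ) z = 0) (he : ec (RT τ) z = 1) :
    YV m d τ N (xpt z) ∧ Algebra.trdeg k (fld k (xpt z)) = r ∧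
      SS p m d r (RT τ) z ∈
        Submodule.span ℚ {Psi k p m d r τ (Finsupp.single (key k (xpt z)) 1)} := by
  refine ⟨YV_of_good hz hX hB, (transc_of_vert hz.mem hz.dim hV).2, ?_⟩
  rw [SS_eq_psi hS hz hV he, Psi_single, one_smul]
  exact Submodule.smul_mem _ _ (Submodule.mem_span_singleton_self _)

end Pool.Agent.Helper16.KAP
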