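import Pool.Agent.Helper84.KL.Sp2
import Pool.Agent.Helper57.KL.Tr
import Pool.Agent.Helper33.KL.ModS
import Pool.Agent.Helper73.KL.Pl
import Pool.Agent.Helper16.KL.Sum
import Pool.Agent.Helper16.KA.Psi

set_option autoImplicit false
set_option linter.unusedSectionVars false
set_option linter.style.haveILetI false

/-!
Project KA, KA-12: points at the places above a Gauss place.
-/

namespace Pool.Agent.Helper16.KAP

open Pool.Agent.Helper16 Pool.Agent.HC
open Pool.Agent.Helper1.KL (Var VarF Key key fld spec cyc relations rat CH coef Idx)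
open Pool.Agent.Helper1.KL (aff xc yc tr ec red xpt perp Prp ratf Vert Con At0 Quo cls IT RT)
open Pool.Agent.Helper1.KL (key_eq_iff getD_map key_map mem_fld getD_mem_fld fld_eq_range fld_map
  trdeg_fld_map restr restr_map key_restr fld_restr trdeg_fld_restr exists_hom_of_key
  trdeg_eq_of_key charP_ratFunc charP_alg cast_pow_p)
open Pool.Agent.Helper1.KA
open Pool.Agent.Helper16.KLP (Above resL Gs mp mem_IT RT_of_notMem mp_eq)

variable {k : Type} [Field k] {p m : ℕ} [Fact p.Prime] [CharP k p] {n : ℕ} {d : Fin n → k} {r : ℕ}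

section maps

variable {N N' : Type} [Field N] [Algebra k N] [Field N'] [Algebra k N']

theorem Bfun_map (φ : N →ₐ[k] N') (τ : Fin n → Option (ZMod p)) (x : Fin n → Option N) :
    Bfun τ (fun i => (x i).map φ) = φ (Bfun τ x) := by
  unfold Bfun
  rw [map_sum]
  refine Finset.sum_congr rfl fun i _ => ?_
  rw [map_mul, map_natCast, getD_map]

theorem AV_map (φ : N →ₐ[k] N') (τ : Fin n → Option (ZMod p)) (x : Fin n → Option N) :
    AV m d τ N' (fun i => (x i).map φ) ↔ AV m d τ N x := by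
  unfold AV
  refine and_congr ?_ ?_
  · exact forall_congr' fun i => iff_congr Iff.rfl Option.map_eq_none_iff
  · have h1 : ∑ i, (coef τ i : N') * algebraMap k N' (d i) * ((x i).map φ).getD 0 ^ m =
        φ (∑ i, (coef τ i : N) * algebraMap k N (d i) * (x i).getD 0 ^ m) := by
      rw [map_sum]
      refine Finset.sum_congr rfl fun i _ => ?_
      rw [map_mul, map_mul, map_natCast, AlgHom.commutes, map_pow, getD_map]
    rw [h1, map_eq_zero]

theorem YV_map (φ : N →ₐ[k] N') (τ : Fin n → Option (ZMod p)) (x : Fin n → Option N) :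
    YV m d τ N' (fun i => (x i).map φ) ↔ YV m d τ N x := by
  unfold YV
  rw [AV_map, Bfun_map, map_eq_zero]

end maps

section specs

variable {M : Type} [Field M] [Algebra (RatFunc k) M]

theorem Xc_spec (v : Place (RatFunc k) M) {z : Fin n ⊕ Fin n → Option M} (ρ : Fin n → ZMod p)
    (h : ∀ i, ρ i ≠ 0 → spec v z (Sum.inl i) ≠ none) :
    Xc m d ρ z ∈ v.ring ∧ Xc m d ρ (spec v z) = v.res (Xc m d ρ z) := by
  have h1 : ∀ i, (ρ i).cast * algebraMap (RatFunc k) M (RatFunc.C (d i)) * xc z i ^ m ∈ v.ring ∧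
      v.res ((ρ i).cast * algebraMap (RatFunc k) M (RatFunc.C (d i)) * xc z i ^ m) =
        (ρ i).cast * algebraMap (RatFunc k) v.resField (RatFunc.C (d i)) *
          xc (spec v z) i ^ m := by
    intro i
    by_cases h0 : ρ i = 0
    · rw [h0, ZMod.cast_zero, ZMod.cast_zero, zero_mul, zero_mul, zero_mul, zero_mul]
      exact ⟨zero_mem _, v.res_zero⟩
    · obtain ⟨a, h2, h3, h4⟩ := Helper84.KL.of_spec_ne v (h i h0)
      have h5 : xc z i = a := by simp [xc, h2]
      have h6 : xc (spec v z) i = v.res a := by simp only [xc, h4, Option.getD_some]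
      obtain ⟨h7, h8⟩ := Helper84.KL.cast_mem_res (M := M) v (ρ i)
      have h12 := v.ring.algebraMap_mem (RatFunc.C (d i) : RatFunc k)
      rw [h5, h6]
      refine ⟨mul_mem (mul_mem h7 h12) (pow_mem h3 m), ?_⟩
      rw [v.res_mul (mul_mem h7 h12) (pow_mem h3 m), v.res_mul h7 h12, h8, v.res_pow h3,
        v.res_algebraMap]
  obtain ⟨h2, h3⟩ := Helper84.KL.res_sum v Finset.univ _ fun i _ => (h1 i).1
  refine ⟨h2, ?_⟩
  unfold Xc
  rw [h3]
  exact Finset.sum_congr rfl fun i _ => (h1 i).2.symm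

theorem Bc_spec (v : Place (RatFunc k) M) {z : Fin n ⊕ Fin n → Option M} (ρ : Fin n → ZMod p)
    (h : ∀ i, ρ i ≠ 0 → spec v z (Sum.inl i) ≠ none) :
    Bc ρ z ∈ v.ring ∧ Bc ρ (spec v z) = v.res (Bc ρ z) :=
  Helper84.KL.Xc_spec v ρ h

end specs

/-! ### The data of a relation -/

/-- The data: `x` is a point over `N`, `L = N(t)`, and `z` a point over the extension `M` of `L`
with the coordinates `x`. -/
structure Dt {k : Type} [Field k] {p : ℕ} [Fact p.Prime] [CharP k p] (m : ℕ) {n : ℕ} (d : Fin n → k)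
    (r : ℕ) (τ : Fin n → Option (ZMod p)) (N L M : Type) [Field N] [Field L] [Field M]
    [Algebra k N] [Algebra k L] [Algebra k M] [Algebra N L] [Algebra N M] [Algebra L M]
    [Algebra (RatFunc k) L] [Algebra (RatFunc k) M] (x : Fin n → Option N)
    (z : Fin n ⊕ Fin n → Option M) : Prop where
  hm : m ≠ 0
  hXs : ∀ v : Place (RatFunc k) M, XV p m d v.resField (spec v z)
  hT : Transcendental N (tv k L)
  htop : IntermediateField.adjoin N {tv k L} = ⊤
  htrN : Algebra.trdeg k N = r + 1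
  hM : Algebra.EssFiniteType (RatFunc k) M
  htrM : Algebra.trdeg (RatFunc k) M = r + 1
  hz : XV p m d M z
  hxz : xpt z = mp x
  hAV : AV m d τ N x

section main

variable {N L M : Type} [Field N] [Field L] [Field M]
  [Algebra k N] [Algebra k L] [Algebra k M] [Algebra N L] [Algebra N M] [Algebra L M]
  [Algebra (RatFunc k) L] [Algebra (RatFunc k) M] [IsScalarTower k N L]
  [IsScalarTower k (RatFunc k) L] [IsScalarTower k N M] [IsScalarTower k (RatFunc k) M]
  [IsScalarTower N L M] [IsScalarTower (RatFunc k) L M] [IsScalarTower k L M]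
  {τ : Fin n → Option (ZMod p)} {x : Fin n → Option N} {z : Fin n ⊕ Fin n → Option M}

theorem Dt.AVM (D : Dt m d r τ N L M x z) : AV m d τ M (xpt z) := by
  rw [D.hxz, mp_eq (k := k), AV_map]
  exact D.hAV

theorem Dt.Xc_eq (D : Dt m d r τ N L M x z) : Xc m d (RT τ) z = 0 := by
  rw [← sum_coef_eq]
  exact D.AVM.2

theorem Dt.Bc_eq (D : Dt m d r τ N L M x z) :
    Bc (RT τ) z = algebraMap N M (Bfun τ x) := by
  rw [← Bfun_eq, D.hxz, mp_eq (k := k), Bfun_map]
  rfl

theorem Dt.xpt_spec (D : Dt m d r τ N L M x z) (v : Place (RatFunc k) M) :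
    xpt (spec v z) = spec v (mp (M := M) x) := by
  rw [← D.hxz]
  rfl

theorem Dt.inf (D : Dt m d r τ N L M x z) {i : Fin n} (hi : i ∉ IT τ) : z (Sum.inl i) = none := by
  rw [mem_IT, not_not] at hi
  exact (D.AVM.1 i).1 hi

theorem Dt.Xc_spec (D : Dt m d r τ N L M x z) {v : Place (RatFunc k) M}
    (hG : Good p m d r (IT τ) (spec v z)) : Xc m d (RT τ) (spec v z) = 0 := by
  rw [(KAP.Xc_spec v (RT τ) fun i hi => ?_).2, D.Xc_eq, v.res_zero]
  have hi' : i ∈ IT τ := by
    by_contra h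
    exact hi (RT_of_notMem h)
  rw [(hG.of_mem hi').1]
  exact Option.some_ne_none _

theorem Dt.Bc_spec (D : Dt m d r τ N L M x z) {v : Place (RatFunc k) M}
    (hG : Good p m d r (IT τ) (spec v z)) : algebraMap N M (Bfun τ x) ∈ v.ring ∧
      Bc (RT τ) (spec v z) = v.res (algebraMap N M (Bfun τ x)) := by
  have h1 := KAP.Bc_spec (z := z) v (RT τ) fun i hi => by
    have hi' : i ∈ IT τ := by
      by_contra h
      exact hi (RT_of_notMem h)
    rw [(hG.of_mem hi').1]
    exact Option.some_ne_none _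
  rw [D.Bc_eq] at h1
  exact h1

theorem Dt.ec_spec (_ : Dt m d r τ N L M x z) {v : Place (RatFunc k) M}
    (hG : Good p m d r (IT τ) (spec v z)) : ec (RT τ) z ∈ v.ring ∧
      ec (RT τ) (spec v z) = v.res (ec (RT τ) z) := by
  refine Helper84.KL.ec_spec v (RT τ) fun i hi => ?_
  have hi' : i ∈ IT τ := by
    by_contra h
    exact hi (RT_of_notMem h)
  rw [(hG.of_mem hi').2.1]
  exact Option.some_ne_none _

theorem Dt.ec_eq (D : Dt m d r τ N L M x z) :
    ec (RT τ) z ^ p - ec (RT τ) z = algebraMap N M (Bfun τ x) := by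
  rw [as_eq D.hm D.hz (RT τ), D.Xc_eq, D.Bc_eq, mul_zero, zero_add]

variable [Algebra.IsAlgebraic L M]

/-- A good point at a place which is not trivial on `N` comes from a Gauss place. -/
theorem Dt.exists_w (D : Dt m d r τ N L M x z) {v : Place (RatFunc k) M}
    (hG : Good p m d r (IT τ) (spec v z)) (hnt : ∃ a : N, a ≠ 0 ∧ v.val (algebraMap N M a) ≠ 1) :
    ∃ (w : Place k N) (g : Place (RatFunc k) L) (e : ℕ), Gs w g ∧ Above g v e ∧
      Algebra.trdeg k (fld k (spec w x)) = r ∧ AV m d τ w.resField (spec w x) := by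
  have hr : Algebra.trdeg (RatFunc k) (fld (RatFunc k) (spec v (mp (M := M) x))) = r := by
    rw [← D.xpt_spec v, trdeg_xpt hG.mem]
    exact hG.dim
  obtain ⟨w, g, e, h1, h2, h3⟩ := Helper73.KL.stPl k (Fin n) N L M r x v D.hT D.htop D.htrN hnt hr
  obtain ⟨⟨φ, hφ⟩, -, -⟩ :=
    Helper73.KL.stPt k (Fin n) N L M r x w g v e D.hT D.htop D.htrN h1 h2 h3
  refine ⟨w, g, e, h1, h2, h3, ?_⟩
  rw [← AV_map φ, ← hφ, ← D.xpt_spec v]
  exact AV_of_good hG (D.Xc_spec hG)

/-- The point at a place above a Gauss place. -/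
theorem Dt.good_of_above (D : Dt m d r τ N L M x z) {w : Place k N} {g : Place (RatFunc k) L}
    {v : Place (RatFunc k) M} {e : ℕ} (h1 : Gs w g) (h2 : Above g v e)
    (h3 : Algebra.trdeg k (fld k (spec w x)) = r) (h4 : AV m d τ w.resField (spec w x)) :
    Good p m d r (IT τ) (spec v z) ∧ Vert k r (spec v z) ∧
      key k (xpt (spec v z)) = key k (spec w x) ∧
      Module.finrank (fld (RatFunc k) (xpt (spec v z))) v.resField =
        Module.finrank (resL (RatFunc k) L v) v.resField *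
          Module.finrank (fld k (spec w x)) w.resField := by
  obtain ⟨⟨φ, hφ⟩, h5, h6⟩ :=
    Helper73.KL.stPt k (Fin n) N L M r x w g v e D.hT D.htop D.htrN h1 h2 h3
  rw [← D.xpt_spec v] at hφ h5 h6
  have hXV := D.hXs v
  have hAV : AV m d τ v.resField (xpt (spec v z)) := by
    rw [hφ, AV_map]
    exact h4
  refine ⟨⟨hXV, fun i hi => ?_, fun i hi => ?_, ?_⟩, ?_, ?_, h6⟩
  · intro h7
    rcases hXV i with ⟨h8, -⟩ | ⟨u, w, -, h8, -⟩
    · exact mem_IT.1 hi ((hAV.1 i).2 h8)
    · rw [h7] at h8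
      exact Option.some_ne_none _ h8.symm
  · rw [mem_IT, not_not] at hi
    exact (hAV.1 i).1 hi
  · rw [← trdeg_xpt hXV]
    exact h5
  · change Algebra.trdeg k (fld k (xpt (spec v z))) ≤ r
    rw [hφ, trdeg_fld_map, h3]
  · rw [hφ]
    exact key_map φ _

end main

end Pool.Agent.Helper16.KAP
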