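import Pool.Agent.Helper16.KA.Pts
import Pool.Agent.Helper57.KA.Tr
import Pool.Agent.Helper26.KL.Pos

set_option autoImplicit false
set_option linter.unusedSectionVars false
set_option linter.style.haveILetI false

/-!
Project KA, KA-12: the image of a relation.
-/

namespace Pool.Agent.Helper16.KAP

open Pool.Agent.Helper16 Pool.Agent.HC
open Pool.Agent.Helper1.KL (Var VarF Key key fld spec cyc relations CH coef Idx)
open Pool.Agent.Helper1.KL (aff xc yc tr ec red xpt perp Prp ratf Vert Con At0 Quo cls IT RT)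
open Pool.Agent.Helper1.KL (key_eq_iff getD_map key_map mem_fld getD_mem_fld fld_eq_range fld_map
  trdeg_fld_map restr restr_map key_restr fld_restr trdeg_fld_restr exists_hom_of_key
  trdeg_eq_of_key charP_ratFunc charP_alg cast_pow_p)
open Pool.Agent.Helper1.KA
open Pool.Agent.Helper16.KLP (Above resL Gs mp mem_IT RT_of_notMem mp_eq StEF StPl StPt
  exists_ord_one above_unique ord_of_above finrank_mul_rel)

variable {k : Type} [Field k] {p m : ℕ} [Fact p.Prime] [CharP k p] {n : ℕ} {d : Fin n → k} {r : ℕ}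

/-- A relation, with the terms which are not good removed. -/
theorem rel_good {M : Type} [Field M] [Algebra (RatFunc k) M]
    (hM : Algebra.EssFiniteType (RatFunc k) M) (htr : Algebra.trdeg (RatFunc k) M = r + 1)
    {z : Fin n ⊕ Fin n → Option M} (hz : XV p m d M z)
    (hXs : ∀ v : Place (RatFunc k) M, XV p m d v.resField (spec v z)) {I : Finset (Fin n)}
    (hinf : ∀ i ∉ I, z (Sum.inl i) = none) {f : M} (hf : f ≠ 0) (ρ h : Fin n → ZMod p) :
    ∃ G : Finset (Place (RatFunc k) M), (∀ v, v ∈ G ↔ v.ord f ≠ 0 ∧ Good p m d r I (spec v z)) ∧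
      ∑ v ∈ G, ((v.ord f * Module.finrank (fld (RatFunc k) (spec v z)) v.resField : ℤ) : ℚ) •
        SS p m d r ρ (tr h (spec v z)) ∈ GG p m d r I.card := by
  classical
  have hfin := Helper26.KL.finite_places_spec hM htr z f
  set S := hfin.toFinset with hSdef
  have hS' : ∀ v, v ∈ S ↔ v.ord f ≠ 0 ∧
      Algebra.trdeg (RatFunc k) (fld (RatFunc k) (spec v z)) = r := by
    intro v
    rw [hSdef, Set.Finite.mem_toFinset, Set.mem_ofPred_eq]
  have h3 : ∀ h' : Fin n → ZMod p, ∑ v ∈ S,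
      ((v.ord f * Module.finrank (fld (RatFunc k) (spec v z)) v.resField : ℤ) : ℚ) •
        cl p m d r (tr h' (spec v z)) = 0 := by
    intro h'
    have h4 := Helper26.KL.rel_sum (V := XV p m d) (P := fun N _ _ z _ => XV p m d N z) (r := r)
      hM htr (z := tr h' z) (f := f) (Helper57.KA.XV_tr_of h' hz) hf (S := S) (fun v => by
        rw [hS', Helper57.KL.spec_tr, Helper57.KL.fld_tr]
        exact ⟨fun h => ⟨h.1, Helper57.KA.XV_tr_of h' (hXs v), h.2⟩, fun h => ⟨h.1, h.2.2⟩⟩)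
    rw [← h4]
    refine Finset.sum_congr rfl fun v _ => ?_
    rw [Helper57.KL.spec_tr, Helper57.KL.fld_tr]
  have hsum' : ∑ v ∈ S,
      ((v.ord f * Module.finrank (fld (RatFunc k) (spec v z)) v.resField : ℤ) : ℚ) •
        SS p m d r ρ (tr h (spec v z)) = 0 := by
    have h4 : ∀ v ∈ S,
        ((v.ord f * Module.finrank (fld (RatFunc k) (spec v z)) v.resField : ℤ) : ℚ) •
          SS p m d r ρ (tr h (spec v z)) = ∑ g ∈ perp ρ,
        ((v.ord f * Module.finrank (fld (RatFunc k) (spec v z)) v.resField : ℤ) : ℚ) •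
          cl p m d r (tr (g + h) (spec v z)) := by
      intro v _
      rw [← Finset.smul_sum]
      congr 1
      exact Helper57.KA.SH_tr (perp ρ) h (spec v z)
    rw [Finset.sum_congr rfl h4, Finset.sum_comm]
    exact Finset.sum_eq_zero fun g _ => h3 (g + h)
  refine ⟨S.filter fun v => Good p m d r I (spec v z), fun v => ?_, ?_⟩
  · rw [Finset.mem_filter, hS']
    exact ⟨fun h => ⟨h.1.1, h.2⟩, fun h => ⟨⟨h.1, h.2.dim⟩, h.2⟩⟩
  · rw [← Finset.sum_filter_add_sum_filter_not S (fun v => Good p m d r I (spec v z))] at hsum'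
    rw [eq_neg_of_add_eq_zero_left hsum']
    refine neg_mem (sum_mem fun v hv => Submodule.smul_mem _ _ ?_)
    rw [Finset.mem_filter, hS'] at hv
    have h5 := Good.of_XV (hXs v) hv.1.2
    have h6 : aff (spec v z) ⊆ I := by
      intro i hi
      by_contra hi'
      have h7 : spec v z (Sum.inl i) = none := Helper84.KL.spec_none v (hinf i hi')
      rw [(h5.of_mem hi).1] at h7
      exact Option.some_ne_none _ h7
    have h7 : aff (spec v z) ≠ I := by
      intro h8
      rw [h8] at h5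
      exact hv.2 h5
    have h8 : (aff (spec v z)).card < I.card := Finset.card_lt_card (h6.ssubset_of_ne h7)
    have h9 : SS p m d r ρ (tr h (spec v z)) =
        ∑ g ∈ perp ρ, cl p m d r (tr (g + h) (spec v z)) :=
      Helper57.KA.SH_tr (perp ρ) h (spec v z)
    rw [h9]
    refine sum_mem fun g _ => cl_mem_GG (Helper57.KA.XV_tr_of _ (hXs v)) ?_ ?_
    · rw [Helper57.KL.fld_tr]
      exact hv.1.2
    · rw [Helper57.KL.aff_tr]
      exact h8

section main

variable {N L M : Type} [Field N] [Field L] [Field M]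
  [Algebra k N] [Algebra k L] [Algebra k M] [Algebra N L] [Algebra N M] [Algebra L M]
  [Algebra (RatFunc k) L] [Algebra (RatFunc k) M] [IsScalarTower k N L]
  [IsScalarTower k (RatFunc k) L] [IsScalarTower k N M] [IsScalarTower k (RatFunc k) M]
  [IsScalarTower N L M] [IsScalarTower (RatFunc k) L M] [IsScalarTower k L M]
  [FiniteDimensional L M] [Algebra.IsSeparable L M]
  {τ : Fin n → Option (ZMod p)} {x : Fin n → Option N} {z : Fin n ⊕ Fin n → Option M}

/-- The image of a relation, from relations on `X`. -/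
theorem Dt.rel_image (D : Dt m d r τ N L M x z) (hS : ModS k p m d r)
    (hEF : StEF) {f : N}
    (hf : f ≠ 0) {S : Finset (Place k N)}
    (hSm : ∀ w, w ∈ S ↔ w.ord f ≠ 0 ∧ YV m d τ w.resField (spec w x) ∧
      Algebra.trdeg k (fld k (spec w x)) = r)
    (C : Finset (ZMod p)) (F : ZMod p → M) (h : ZMod p → Fin n → ZMod p)
    (hF0 : ∀ c ∈ C, F c ≠ 0)
    (hC1 : ∀ c ∈ C, ∀ v : Place (RatFunc k) M, v.ord (F c) ≠ 0 →
      Good p m d r (IT τ) (spec v z) → v.ord (F c) = v.ord (algebraMap N M f) ∧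
        Bc (RT τ) (spec v z) = 0 ∧ ec (RT τ) (tr (h c) (spec v z)) = 1)
    (hC2 : ∀ v : Place (RatFunc k) M, Good p m d r (IT τ) (spec v z) →
      v.ord (algebraMap N M f) ≠ 0 → Bc (RT τ) (spec v z) = 0 →
      ∃ c ∈ C, v.ord (F c) ≠ 0 ∧ ∀ c' ∈ C, v.ord (F c') ≠ 0 → c' = c) :
    Psi k p m d r τ (∑ w ∈ S, Finsupp.single (key k (spec w x))
      ((w.ord f * Module.finrank (fld k (spec w x)) w.resField : ℤ) : ℚ)) ∈
        GG p m d r (IT τ).card := by
  classical
  have hex := fun w : Place k N => exists_gaussPlace D.hT D.htop w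
  choose g hg1 hg2 using hex
  have hgs : ∀ w, Gs w (g w) := fun w => ⟨hg1 w, hg2 w⟩
  choose T e hT1 hT2 hT3 using fun w : Place k N => hEF (RatFunc k) L M (g w)
  have hfM : algebraMap N M f ≠ 0 := (map_ne_zero _).2 hf
  choose! G hG hGW using fun c (hc : c ∈ C) => rel_good (r := r) D.hM D.htrM D.hz D.hXs
    (I := IT τ) (fun i hi => D.inf hi) (hF0 c hc) (RT τ) (h c)
  -- points of the relations on `X`
  have hw : ∀ v, (∃ c ∈ C, v ∈ G c) → ∃ w ∈ S, v ∈ T w := by
    rintro v ⟨c, hc, hv⟩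
    obtain ⟨hv1, hv2⟩ := (hG c hc v).1 hv
    obtain ⟨h1, h2, -⟩ := hC1 c hc v hv1 hv2
    rw [h1] at hv1
    obtain ⟨w, g', e', h3, h4, h5, h6⟩ := D.exists_w hv2
      ⟨f, hf, fun h0 => hv1 ((v.ord_eq_zero_iff hfM).2 h0)⟩
    have hgg : g w = g' := gauss_unique D.hT D.htop w (g w) g' (hg2 w) h3.2
    refine ⟨w, (hSm w).2 ⟨?_, ⟨h6, ?_⟩, h5⟩, (hT1 w v).2 ⟨e', by rw [hgg]; exact h4⟩⟩
    · intro h0
      rw [ord_of_above h3 h4, h0, mul_zero] at hv1
      exact hv1 rfl
    · obtain ⟨⟨φ, hφ⟩, -, -⟩ :=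
        Helper73.KL.stPt k (Fin n) N L M r x w g' v e' D.hT D.htop D.htrN h3 h4 h5
      rw [← D.xpt_spec v] at hφ
      have h7 := Bfun_eq τ (spec v z)
      rw [hφ, Bfun_map, h2, map_eq_zero] at h7
      exact h7
  -- points above the places of `S`
  have hc : ∀ w ∈ S, ∀ v ∈ T w, Good p m d r (IT τ) (spec v z) ∧ Vert k r (spec v z) ∧
      key k (xpt (spec v z)) = key k (spec w x) ∧
      Module.finrank (fld (RatFunc k) (xpt (spec v z))) v.resField =
        Module.finrank (resL (RatFunc k) L v) v.resField *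
          Module.finrank (fld k (spec w x)) w.resField ∧
      v.ord (algebraMap N M f) = e w v * w.ord f ∧ Bc (RT τ) (spec v z) = 0 := by
    intro w hwS v hv
    obtain ⟨h1, h2, h3⟩ := (hSm w).1 hwS
    have h4 := hT2 w v hv
    obtain ⟨h5, h6, h7, h8⟩ := D.good_of_above (hgs w) h4 h3 h2.1
    refine ⟨h5, h6, h7, h8, ord_of_above (hgs w) h4 f, ?_⟩
    obtain ⟨⟨φ, hφ⟩, -, -⟩ :=
      Helper73.KL.stPt k (Fin n) N L M r x w (g w) v (e w v) D.hT D.htop D.htrN (hgs w) h4 h3
    rw [← D.xpt_spec v] at hφ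
    rw [← Bfun_eq τ (spec v z), hφ, Bfun_map, h2.2, map_zero]
  have hcC : ∀ w ∈ S, ∀ v ∈ T w, ∃ c ∈ C, v ∈ G c ∧ ∀ c' ∈ C, v ∈ G c' → c' = c := by
    intro w hwS v hv
    obtain ⟨h1, h2, h3, h4, h5, h6⟩ := hc w hwS v hv
    have h7 : v.ord (algebraMap N M f) ≠ 0 := by
      rw [h5]
      exact mul_ne_zero (by exact_mod_cast (hT2 w v hv).1.ne') ((hSm w).1 hwS).1
    obtain ⟨c, hcC, h8, h9⟩ := hC2 v h1 h7 h6
    exact ⟨c, hcC, (hG c hcC v).2 ⟨h8, h1⟩, fun c' hc' h10 => h9 c' hc' ((hG c' hc' v).1 h10).1⟩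
  have hTdisj : ∀ w ∈ S, ∀ w' ∈ S, ∀ v, v ∈ T w → v ∈ T w' → w = w' := by
    intro w _ w' _ v hv hv'
    have h1 : g w = g w' := above_unique (hT2 w v hv) (hT2 w' v hv')
    apply Place.ext_val
    ext a
    rw [← (hgs w).1 a, ← (hgs w').1 a, h1]
  choose wf hwfS hwfT using hw
  set A : Place k N → Place (RatFunc k) M → QX p m d r := fun w v =>
    (((e w v * Module.finrank (resL (RatFunc k) L v) v.resField : ℕ) : ℚ) *
      ((w.ord f * Module.finrank (fld k (spec w x)) w.resField : ℤ) : ℚ)) •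
        psi k p m d r τ (key k (spec w x)) with hA
  have hsum : ∑ q ∈ C.sigma G,
      ((q.2.ord (F q.1) * Module.finrank (fld (RatFunc k) (spec q.2 z)) q.2.resField : ℤ) : ℚ) •
        SS p m d r (RT τ) (tr (h q.1) (spec q.2 z)) = ∑ q ∈ S.sigma T, A q.1 q.2 := by
    refine Finset.sum_bij (fun q hq => (⟨wf q.2 ⟨q.1, Finset.mem_sigma.1 hq⟩, q.2⟩ :
      Σ _ : Place k N, Place (RatFunc k) M)) ?_ ?_ ?_ ?_
    · intro q hq
      exact Finset.mem_sigma.2 ⟨hwfS _ _, hwfT _ _⟩
    · rintro ⟨c, v⟩ hq ⟨c', v'⟩ hq' heq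
      have hvv : v = v' := by
        have := congrArg Sigma.snd heq
        exact this
      subst hvv
      obtain ⟨h1, h2⟩ := Finset.mem_sigma.1 hq
      obtain ⟨h1', h2'⟩ := Finset.mem_sigma.1 hq'
      obtain ⟨c0, -, -, h3⟩ := hcC _ (hwfS v ⟨c, h1, h2⟩) v (hwfT v ⟨c, h1, h2⟩)
      have h4 : c = c' := (h3 c h1 h2).trans (h3 c' h1' h2').symm
      subst h4
      rfl
    · rintro ⟨w, v⟩ hq
      obtain ⟨h1, h2⟩ := Finset.mem_sigma.1 hq
      obtain ⟨c, hcC', h3, -⟩ := hcC w h1 v h2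
      have hq' : (⟨c, v⟩ : Σ _ : ZMod p, Place (RatFunc k) M) ∈ C.sigma G :=
        Finset.mem_sigma.2 ⟨hcC', h3⟩
      refine ⟨⟨c, v⟩, hq', ?_⟩
      have h4 := hTdisj _ (hwfS v ⟨c, hcC', h3⟩) w h1 v (hwfT v ⟨c, hcC', h3⟩) h2
      simp only [h4]
    · rintro ⟨c, v⟩ hq
      obtain ⟨h1, h2⟩ := Finset.mem_sigma.1 hq
      have hex : ∃ c ∈ C, v ∈ G c := ⟨c, h1, h2⟩
      obtain ⟨h3, h4, h5, h6, h7, -⟩ := hc _ (hwfS v hex) v (hwfT v hex)
      obtain ⟨h8, h9⟩ := (hG c h1 v).1 h2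
      obtain ⟨h10, -, h11⟩ := hC1 c h1 v h8 h9
      have h12 := SS_eq_psi hS (Helper57.KA.Good.tr h9 (h c)) h4 h11
      rw [Helper57.KL.xpt_tr, h5] at h12
      have h13 := finrank_mul_rel (k := k) h11
      rw [Helper57.KL.fld_tr, Helper57.KL.xpt_tr, h6] at h13
      change ((v.ord (F c) * Module.finrank (fld (RatFunc k) (spec v z)) v.resField : ℤ) : ℚ) •
        SS p m d r (RT τ) (tr (h c) (spec v z)) = A (wf v hex) v
      rw [h12, hA, smul_smul, h10, h7]
      congr 1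
      rw [Helper57.KL.fld_tr]
      have h14 : ((Module.finrank (fld (RatFunc k) (spec v z)) v.resField : ℕ) : ℚ) *
          (((fld (RatFunc k) (red (RT τ) (tr (h c) (spec v z)))).relfinrank
            (fld (RatFunc k) (spec v z)) : ℕ) : ℚ) =
          ((Module.finrank (resL (RatFunc k) L v) v.resField : ℕ) : ℚ) *
          ((Module.finrank (fld k (spec (wf v hex) x)) (wf v hex).resField : ℕ) : ℚ) := by
        exact_mod_cast h13
      push_cast
      linear_combination ((e (wf v hex) v : ℚ) * ((wf v hex).ord f : ℚ)) * h14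
  have hmem : ∑ q ∈ S.sigma T, A q.1 q.2 ∈ GG p m d r (IT τ).card := by
    rw [← hsum, Finset.sum_sigma]
    exact sum_mem fun c hc => hGW c hc
  rw [Finset.sum_sigma] at hmem
  have hfin : ∀ w ∈ S, ∑ v ∈ T w, A w v = ((Module.finrank L M : ℕ) : ℚ) •
      (((w.ord f * Module.finrank (fld k (spec w x)) w.resField : ℤ) : ℚ) •
        psi k p m d r τ (key k (spec w x))) := by
    intro w _
    rw [← hT3 w, hA, smul_smul]
    simp only
    rw [← Finset.sum_smul, ← Finset.sum_mul]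
    push_cast
    rfl
  rw [Finset.sum_congr rfl hfin, ← Finset.smul_sum] at hmem
  have hpos : ((Module.finrank L M : ℕ) : ℚ) ≠ 0 := by
    exact_mod_cast (Module.finrank_pos (R := L) (M := M)).ne'
  have h1 := Submodule.smul_mem (GG p m d r (IT τ).card) ((Module.finrank L M : ℕ) : ℚ)⁻¹ hmem
  rw [smul_smul, inv_mul_cancel₀ hpos, one_smul] at h1
  rw [map_sum]
  have h2 : ∀ w ∈ S, Psi k p m d r τ (Finsupp.single (key k (spec w x))
      ((w.ord f * Module.finrank (fld k (spec w x)) w.resField : ℤ) : ℚ)) =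
      ((w.ord f * Module.finrank (fld k (spec w x)) w.resField : ℤ) : ℚ) •
        psi k p m d r τ (key k (spec w x)) := fun w _ => Psi_single _ _ _
  rw [Finset.sum_congr rfl h2]
  exact h1

end main

end Pool.Agent.Helper16.KAP
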